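import Pool.Agent.Helper78.LM.Goals

/-!
# The functions of the simulating machine are in `PolyTime`
-/

namespace Pool.Agent.Helper51.LM

open Pool.Agent.Helper81.CC Pool.Agent.Helper51.ZP Pool.Agent.Helper78.LM Pool.Agent.Helper83.CL

variable {α : Type} [ToData α]

theorem PT_toNat {f : α → Bool} (hf : PolyTime f) : PolyTime (fun a => (f a).toNat) :=
  (PolyTime.ite (f := fun _ => 1) (g := fun _ => 0) hf (by fun_prop) (by fun_prop)).congr
    fun a => by cases h : f a <;> simp [h]

theorem PT_digits (c : ℕ) {f : α → ℕ} (hf : PolyTime f) :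
    PolyTime (fun a => digits c (f a)) := by
  unfold digits
  exact PolyTime.list_map (f := fun a d => decide (f a / d % 2 = 1)) (PolyTime.const _)
    (PolyTime.decide_eq (by fun_prop) (by fun_prop))

theorem PT_unitV {f : α → ℕ} (hf : PolyTime f) : PolyTime (fun a => unitV (f a)) := by
  unfold unitV
  exact PolyTime.append (PolyTime.replicate hf (by fun_prop)) (PolyTime.const _)

section
variable {c : ℕ} {m S : Polynomial ℕ} {pred : List Bool × ℕ × ℕ → ℕ}
  {val : List Bool × ℕ × List Bool → Bool} {ok : List Bool → Bool}
  {arg : List Bool → List Bool} {d : Bool}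

theorem PT_arg (harg : PolyTime arg) {y : α → List Bool} (hy : PolyTime y) :
    PolyTime (fun a => arg (y a)) := PolyTime.comp harg hy

theorem PT_nCoins (harg : PolyTime arg) {y : α → List Bool} (hy : PolyTime y) :
    PolyTime (fun a => nCoins m arg (y a)) := by
  have h := PT_arg harg hy
  unfold nCoins
  exact PT_eval m (by fun_prop)

theorem PT_gNum (harg : PolyTime arg) {y : α → List Bool} (hy : PolyTime y) {t : α → ℕ}
    (ht : PolyTime t) : PolyTime (fun a => gNum c m arg (y a) (t a)) := by
  have h := PT_nCoins (m := m) harg hy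
  unfold gNum
  fun_prop

theorem PT_iNum (harg : PolyTime arg) {y : α → List Bool} (hy : PolyTime y) {t : α → ℕ}
    (ht : PolyTime t) : PolyTime (fun a => iNum c m arg (y a) (t a)) := by
  have h := PT_nCoins (m := m) harg hy
  unfold iNum
  fun_prop

theorem PT_isGate (hok : PolyTime ok) (harg : PolyTime arg) {y : α → List Bool}
    (hy : PolyTime y) {t : α → ℕ} (ht : PolyTime t) :
    PolyTime (fun a => isGate c m S ok arg (y a) (t a)) := by
  have h := PT_nCoins (m := m) harg hy
  have h1 := PT_gNum (c := c) (m := m) harg hy ht
  have h2 : PolyTime (fun a => ok (y a)) := PolyTime.comp hok hy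
  have h3 := PT_arg harg hy
  have h4 : PolyTime (fun a => S.eval (arg (y a)).length) := PT_eval S (by fun_prop)
  unfold isGate
  fun_prop

theorem PT_cur (harg : PolyTime arg) {z : α → View} (hz : PolyTime z) :
    PolyTime (fun a => cur c m arg (z a)) := by
  have h := PT_iNum (c := c) (m := m) harg (y := fun a => (z a).1) (t := fun a => (z a).2.1)
    (by fun_prop) (by fun_prop)
  have h1 : PolyTime (fun a => (z a).2.2.2.2.2.toNat) := PT_toNat (by fun_prop)
  unfold cur
  exact PolyTime.itep (by fun_prop) (by fun_prop) (by fun_prop)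

theorem PT_gVal (hval : PolyTime val) (harg : PolyTime arg) {z : α → View} (hz : PolyTime z) :
    PolyTime (fun a => gVal c m val arg (z a)) := by
  unfold gVal
  refine PolyTime.comp hval (PolyTime.pair (PT_arg harg (by fun_prop)) (PolyTime.pair
    (PT_gNum harg (by fun_prop) (by fun_prop)) (PT_digits c (PT_cur harg hz))))

theorem PT_simNext (hval : PolyTime val) (hok : PolyTime ok) (harg : PolyTime arg) :
    PolyTime (fun z => simNext c m S val ok arg d z) := by
  unfold simNext
  have h1 : PolyTime (fun z : View => ok z.1) := PolyTime.comp hok (by fun_prop)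
  have h2 : PolyTime (fun z : View => nCoins m arg z.1) := PT_nCoins harg (by fun_prop)
  have h3 : PolyTime (fun z : View => isGate c m S ok arg z.1 z.2.1) :=
    PT_isGate hok harg (by fun_prop) (by fun_prop)
  have h4 : PolyTime (fun z : View => iNum c m arg z.1 z.2.1) :=
    PT_iNum harg (by fun_prop) (by fun_prop)
  have h5 : PolyTime (fun z : View => (gVal c m val arg z).toNat) :=
    PT_toNat (PT_gVal hval harg (by fun_prop))
  have h6 : PolyTime (fun z : View => cur c m arg z) := PT_cur harg (by fun_prop)
  refine PolyTime.mod ?_ (PolyTime.const _)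
  refine PolyTime.itep (by fun_prop) (PolyTime.const _) ?_
  refine PolyTime.itep (by fun_prop) (PolyTime.const _) ?_
  refine PolyTime.itep (by fun_prop) ?_ (by fun_prop)
  exact PolyTime.itep (by fun_prop) h5 h6

theorem PT_simVec (hval : PolyTime val) (hok : PolyTime ok) (harg : PolyTime arg) :
    PolyTime (fun z => simVec c m S val ok arg z) := by
  unfold simVec
  have h1 : PolyTime (fun z : View => ok z.1) := PolyTime.comp hok (by fun_prop)
  have h2 : PolyTime (fun z : View => nCoins m arg z.1) := PT_nCoins harg (by fun_prop)
  have h3 : PolyTime (fun z : View => isGate c m S ok arg z.1 z.2.1) :=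
    PT_isGate hok harg (by fun_prop) (by fun_prop)
  have h4 : PolyTime (fun z : View => iNum c m arg z.1 z.2.1) :=
    PT_iNum harg (by fun_prop) (by fun_prop)
  have h5 : PolyTime (fun z : View => gVal c m val arg z) := PT_gVal hval harg (by fun_prop)
  have h6 : PolyTime (fun z : View => unitV (gNum c m arg z.1 z.2.1)) :=
    PT_unitV (PT_gNum harg (by fun_prop) (by fun_prop))
  have h7 : PolyTime (fun z : View => unitV (z.2.1 + 1)) := PT_unitV (by fun_prop)
  refine PolyTime.itep (by fun_prop) ?_ ?_
  · exact PolyTime.itep (by fun_prop) h7 (PolyTime.const _)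
  · exact PolyTime.itep (by fun_prop) h6 (PolyTime.const _)

theorem PT_simReads (hok : PolyTime ok) (harg : PolyTime arg) :
    PolyTime (fun z => simReads c m S ok arg z) := by
  unfold simReads
  have h3 : PolyTime (fun z : List Bool × ℕ => isGate c m S ok arg z.1 z.2) :=
    PT_isGate hok harg (by fun_prop) (by fun_prop)
  have h4 : PolyTime (fun z : List Bool × ℕ => iNum c m arg z.1 z.2) :=
    PT_iNum harg (by fun_prop) (by fun_prop)
  fun_prop

theorem PT_simForm (hpred : PolyTime pred) (hok : PolyTime ok) (harg : PolyTime arg) :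
    PolyTime (fun z => simForm c m S pred ok arg z) := by
  unfold simForm
  have h3 : PolyTime (fun z : List Bool × ℕ => simReads c m S ok arg z) := PT_simReads hok harg
  have h4 : PolyTime (fun z : List Bool × ℕ =>
      pred (arg z.1, gNum c m arg z.1 z.2, iNum c m arg z.1 z.2)) := by
    refine PolyTime.comp hpred (PolyTime.pair (PT_arg harg (by fun_prop)) (PolyTime.pair
      (PT_gNum harg (by fun_prop) (by fun_prop)) (PT_iNum harg (by fun_prop) (by fun_prop))))
  exact PolyTime.itep (by fun_prop) (PT_unitV h4) (PolyTime.const _)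

end

theorem smf : Pool.Agent.Helper78.LM.SmfStmt := by
  intro c m S pred val ok arg d hpred hval hok harg
  refine ⟨(PT_simNext hval hok harg).computable, (PolyTime.const _).computable,
    (PT_simVec hval hok harg).computable, ?_, (PT_simForm hpred hok harg).computable,
    (PT_simReads hok harg).computable⟩
  have h : PolyTime (fun z : List Bool × ℕ × ℕ => simRow z) := by
    unfold simRow
    exact PT_unitV (by fun_prop)
  exact h.computable

end Pool.Agent.Helper51.LM
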